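import Pool.Agent.E8helper38.NP.Rat
import Pool.Agent.Results.MP_28d749_ag.TropicalFamilies

/-!
# Pink's conjecture for the members of one-parameter families whose rational parameters approximate a
given number

We keep the families of the starting file `TropicalFamilies`: `(X_t)` is a one-parameter family of
subvarieties of the fibre powers of elliptic schemes, given by a finite system `F` of polynomials with
coefficients in `ℚ̄[t]`, which satisfies the condition `GenericP` on its tropicalizations at finitely
many rational numbers. There it is shown that few members of the family with rational parameters have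
atypical intersections with algebraic subgroups of the fibres. Here we show that ALL but finitely many
of the members whose parameters approximate a given number `ξ` have no such intersections, with a
set of exceptional `ξ` of small Hausdorff dimension:

* for all real `ξ` outside a set of Hausdorff dimension at most `3 / (2 τ)` the members `X_t` have no
  atypical intersections for all but finitely many rational `t` with `|ξ - t| ≤ M den(t) ^ (-τ)`. For
  `τ = 2` these are all good approximations of `ξ`, for example all convergents of its continued
  fraction, and the exceptional set has dimension at most `3 / 4`;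
* for all `ξ` in a metric space `E` outside a set of dimension at most `1 / (2 τ)` the members have no
  atypical intersections for all but finitely many integers `u` with
  `dist (φ u) ξ ≤ M max (1, |u|) ^ (-τ)`. If `E` is the space of `p`-adic integers and `τ = 1` this
  holds for example for the truncations of the `p`-adic expansion of `ξ`, and the exceptional set has
  dimension at most `1 / 2`.
-/

set_option autoImplicit false

namespace Pool.Agent.Results.MP_28d749_ag.MembersNearAPointH38

open MvPolynomial MeasureTheory Pool.Agent.R424.PT
open Pool.Agent.Results.MP_28d749_ag.RandomMultisections (curve)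
open Pool.Agent.E8helper38.NP (ht main)

/-- the member `X_t` of the family has no atypical intersection with algebraic subgroups of the fibres,
where `m` is the dimension of `X_t` -/
def Good {κ : Type} {r q N : ℕ} (m : ℕ)
    (F : κ → MvPolynomial (Coord r q ⊕ Fin N) (Polynomial (algebraicClosure ℚ ℂ))) (t : ℂ) : Prop :=
  NoAtypicalP m (MemberP F t : ∀ s : Fin 2 ⊕ Fin r → ℂ,
    (Fin q → (curve (s (Sum.inl 0)) (s (Sum.inl 1))).Point) → Prop)

/-- **Theorem.** Let `F` be a one-parameter family of subvarieties `X_t` of the powers of elliptic
schemes, as in `TropicalFamilies`, which satisfies the condition `GenericP` on its tropicalizations at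
finitely many rational numbers. Let `τ > 0`.
(A) For all real `ξ` outside a set of Hausdorff dimension at most `3 / (2 τ)` and all `M` the member
`X_t` has no atypical intersection with algebraic subgroups of the fibres, for all rational numbers `t`
with `|ξ - t| ≤ M den(t) ^ (-τ)` with finitely many exceptions.
(B) Let `φ` be any map from `ℚ` to a metric space `E`. The same is true for all `ξ` in `E` outside a
set of dimension at most `3 / (2 τ)` and for all rational numbers `t` with
`dist (φ t) ξ ≤ M ht(t) ^ (-τ)` with finitely many exceptions.
(C) Let `φ` be any map from `ℤ` to a metric space `E`. The same is true for all `ξ` in `E` outside a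
set of dimension at most `1 / (2 τ)` and for all integers `u` with
`dist (φ u) ξ ≤ M max (1, |u|) ^ (-τ)` with finitely many exceptions. -/
theorem result (κ : Type) [Finite κ] (r q N m : ℕ)
    (F : κ → MvPolynomial (Coord r q ⊕ Fin N) (Polynomial (algebraicClosure ℚ ℂ)))
    (D : Finset ℚ) (hgen : GenericP m (fun j => (F j).support) (orders F D)) (τ : ℝ) (hτ : 0 < τ) :
    (∃ Z : Set ℝ, dimH Z ≤ ENNReal.ofReal (3 / (2 * τ)) ∧ ∀ ξ : ℝ, ξ ∉ Z → ∀ M : ℝ,
      {t : ℚ | |ξ - t| ≤ M * (t.den : ℝ) ^ (-τ) ∧ ¬ Good m F (t : ℂ)}.Finite) ∧
    (∀ (E : Type) [MetricSpace E] (φ : ℚ → E),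
      ∃ Z : Set E, dimH Z ≤ ENNReal.ofReal (3 / (2 * τ)) ∧ ∀ ξ : E, ξ ∉ Z → ∀ M : ℝ,
        {t : ℚ | dist (φ t) ξ ≤ M * (ht t : ℝ) ^ (-τ) ∧ ¬ Good m F (t : ℂ)}.Finite) ∧
    ∀ (E : Type) [MetricSpace E] (φ : ℤ → E),
      ∃ Z : Set E, dimH Z ≤ ENNReal.ofReal (1 / (2 * τ)) ∧ ∀ ξ : E, ξ ∉ Z → ∀ M : ℝ,
        {u : ℤ | dist (φ u) ξ ≤ M * ((max 1 u.natAbs : ℕ) : ℝ) ^ (-τ) ∧
          ¬ Good m F (u : ℂ)}.Finite := by
  have h := (TropicalFamilies.result κ r q N m F D hgen).2
  exact main (P := fun t => Good m F t) h τ hτ

end Pool.Agent.Results.MP_28d749_ag.MembersNearAPointH38
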